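import Pool.Agent.H586.GLU.Nz

/-!
# The three-gluon vertex is not identically zero
-/

set_option autoImplicit false

open MeasureTheory Finset Filter Topology

namespace Pool.Agent.H662.GLU

open Pool.Agent.N990 Pool.Agent.N990.C Pool.Agent.H586.GLU

noncomputable section

variable {D : ℕ}

/-- a field with the single component `k` -/
def Fk (k : Fin D) (h : Pt D → ℝ) : Pt D → Fin D → ℝ := fun p i => if i = k then h p else 0

lemma Fk_self (k : Fin D) (h : Pt D → ℝ) (p : Pt D) : Fk k h p k = h p := if_pos rfl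

lemma Fk_ne {k i : Fin D} (hi : i ≠ k) (h : Pt D → ℝ) (p : Pt D) : Fk k h p i = 0 := if_neg hi

lemma Fk_test (k : Fin D) {h : Pt D → ℝ} (h1 : ContDiff ℝ 1 h) (h2 : HasCompactSupport h)
    (h3 : ∀ y, h (y, 0) = 0) : IsTest (Fk k h) := by
  refine ⟨?_, ?_, ?_⟩
  · refine contDiff_pi.2 fun i => ?_
    by_cases hi : i = k
    · subst hi
      simpa only [Fk_self] using h1
    · simp only [Fk_ne hi]
      exact contDiff_const
  · have : Fk k h = (fun t : ℝ => fun i : Fin D => if i = k then t else 0) ∘ h := rfl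
    rw [this]
    refine h2.comp_left ?_
    funext i
    simp
  · intro y
    funext i
    unfold Fk
    rw [h3]
    simp

lemma pd_Fk (k : Fin D) {h : Pt D → ℝ} (h1 : Differentiable ℝ h) (e : Pt D) (i : Fin D) (p : Pt D) :
    pd (Fk k h) e i p = if i = k then fderiv ℝ h p e else 0 := by
  have hd : ∀ j : Fin D, DifferentiableAt ℝ (fun q => Fk k h q j) p := by
    intro j
    by_cases hj : j = k
    · subst hj
      simpa only [Fk_self] using h1 p
    · simp only [Fk_ne hj]
      exact differentiableAt_const _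
  have e1 : fderiv ℝ (Fk k h) p = ContinuousLinearMap.pi fun j => fderiv ℝ (fun q => Fk k h q j) p :=
    fderiv_pi hd
  unfold pd
  rw [e1, ContinuousLinearMap.pi_apply]
  by_cases hi : i = k
  · subst hi
    rw [if_pos rfl]
    simp only [Fk_self]
  · rw [if_neg hi]
    simp only [Fk_ne hi]
    simp

theorem nz : S_NZ := by
  intro D hD
  set c : Pt D := (0, 1 / 2) with hc
  let g : ContDiffBump c := ⟨1 / 8, 1 / 4, by norm_num, by norm_num⟩
  have hgi : g.rIn = 1 / 8 := rfl
  have hgo : g.rOut = 1 / 4 := rfl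
  have g1 : ContDiff ℝ 1 (fun p => g p) := g.contDiff
  have g2 : HasCompactSupport (fun p => g p) := g.hasCompactSupport
  have g3 : ∀ y, g (y, 0) = 0 := by
    intro y
    refine g.zero_of_le_dist ?_
    rw [hgo, hc, Prod.dist_eq]
    refine le_trans ?_ (le_max_right _ _)
    rw [Real.dist_eq]
    norm_num [abs_of_neg]
  set i0 : Fin D := ⟨0, by omega⟩ with hi0
  set i1 : Fin D := ⟨1, by omega⟩ with hi1
  have h01 : i0 < i1 := by simp [hi0, hi1, Fin.lt_def]
  have h01' : i0 ≠ i1 := ne_of_lt h01
  let X : Pt D →L[ℝ] ℝ := (ContinuousLinearMap.proj i0).comp (ContinuousLinearMap.fst ℝ (Fin D → ℝ) ℝ)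
  have hX : ∀ p : Pt D, X p = p.1 i0 := fun p => rfl
  have hXe : X (eh i0) = 1 := by
    rw [hX]; unfold eh; simp
  have hgd : Differentiable ℝ (fun p => g p) := g1.differentiable one_ne_zero
  set a0 : Pt D → ℝ := fun p => X p * g p with ha0
  set a1 : Pt D → ℝ := fun p => g p ^ 2 with ha1
  set a2 : Pt D → ℝ := fun p => g p with ha2
  have a0d : ContDiff ℝ 1 a0 := X.contDiff.mul g1
  have a1d : ContDiff ℝ 1 a1 := g1.pow 2
  have T0 : IsTest (Fk i1 a0) := by
    refine Fk_test i1 a0d ?_ ?_
    · exact HasCompactSupport.mul_left g2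
    · intro y; simp only [ha0]; rw [g3]; ring
  have T1 : IsTest (Fk i0 a1) := by
    refine Fk_test i0 a1d ?_ ?_
    · exact g2.comp_left (g := fun t : ℝ => t ^ 2) (by norm_num)
    · intro y; simp only [ha1]; rw [g3]; ring
  have T2 : IsTest (Fk i1 a2) := Fk_test i1 g1 g2 g3
  have hden : ∀ p, vd3 (Fk i1 a0) (Fk i0 a1) (Fk i1 a2) p = g p ^ 4 := by
    intro p
    have d0 : fderiv ℝ a0 p (eh i0) = g p + X p * fderiv ℝ a2 p (eh i0) := by
      have := fderiv_mul (X.differentiableAt (x := p)) (hgd p)
      rw [show a0 = fun q => X q * g q from rfl]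
      rw [show fderiv ℝ (fun q => X q * g q) p = X p • fderiv ℝ (fun q => g q) p + g p • fderiv ℝ (fun q => X q) p from this]
      rw [add_apply, smul_apply, smul_apply,
        show fderiv ℝ (fun q => X q) p = X from X.fderiv, hXe]
      simp only [smul_eq_mul, ha2]
      ring
    unfold vd3
    rw [Finset.sum_eq_single i0, Finset.sum_eq_single i1]
    · rw [if_pos h01]
      simp only [pd_Fk _ (a0d.differentiable one_ne_zero), pd_Fk _ (a1d.differentiable one_ne_zero),
        pd_Fk _ hgd, Fk_self, Fk_ne h01', Fk_ne h01'.symm, if_neg h01', if_neg h01'.symm, if_true]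
      rw [d0]
      simp only [ha0, ha1, ha2]
      ring
    · intro j _ hj
      split_ifs with h
      · have hj0 : j ≠ i0 := (ne_of_lt h).symm
        simp only [Fk_ne hj, Fk_ne hj0, Fk_ne h01']
        ring
      · rfl
    · intro h; exact absurd (Finset.mem_univ _) h
    · intro i _ hi
      refine Finset.sum_eq_zero fun j _ => ?_
      split_ifs with h
      · have hj0 : j ≠ i0 := by
          intro hj
          rw [hj] at h
          have : (i : ℕ) < 0 := h
          omega
        simp only [pd_Fk _ (a1d.differentiable one_ne_zero), Fk_ne hi, Fk_ne hj0, if_neg hi, if_neg hj0]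
        ring
      · rfl
    · intro h; exact absurd (Finset.mem_univ _) h
  refine ⟨Fk i1 a0, Fk i0 a1, Fk i1 a2, T0, T1, T2, ?_⟩
  simp only [hden]
  have hcont : Continuous fun p => g p ^ 4 := g1.continuous.pow 4
  have hcs : HasCompactSupport fun p => g p ^ 4 :=
    g2.comp_left (g := fun t : ℝ => t ^ 4) (by norm_num)
  have hint : IntegrableOn (fun p => g p ^ 4) (Slb D) :=
    (hcont.integrable_of_hasCompactSupport hcs).integrableOn
  rw [setIntegral_pos_iff_support_of_nonneg_ae (Eventually.of_forall fun p => by positivity) hint]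
  refine lt_of_lt_of_le (Metric.measure_ball_pos volume c (show (0 : ℝ) < 1 / 8 by norm_num)) ?_
  refine measure_mono ?_
  intro p hp
  have hp' : dist p c < 1 / 8 := hp
  refine ⟨?_, ?_⟩
  · rw [Function.mem_support]
    have : g p = 1 := g.one_of_mem_closedBall (by rw [hgi]; exact Metric.ball_subset_closedBall hp)
    rw [this]; norm_num
  · have h2 : dist p.2 c.2 < 1 / 8 := lt_of_le_of_lt (le_max_right _ _) (by rwa [Prod.dist_eq] at hp')
    rw [Real.dist_eq, abs_lt] at h2
    have hc2 : c.2 = 1 / 2 := rfl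
    rw [hc2] at h2
    exact ⟨by linarith [h2.1], by linarith [h2.2]⟩

end

end Pool.Agent.H662.GLU
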